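import Mathlib
import Pool.Agent.KS6_67.Kag.Main

/-!
# MP_11305c_co (Q2): the WSK dynamics for 3 colours on all `m × n` periodic kagome lattices

For all `m, n ≥ 2` the Wang–Swendsen–Kotecky dynamics for `q = 3` colours on the `m × n` periodic
kagome lattice is ergodic if and only if `m = 2`, or `n = 2`, or `m = 3` and `n` is even, or `n = 3`
and `m` is even; and it is ergodic if and only if all 3-colourings have chirality `1`, where the
chirality is the product, over all vertices of the honeycomb graph, of the orientations of the three
colours at the vertex. In particular (`m = n`) it is ergodic on `K_n` only for `n = 2`.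

A proper 3-colouring is a proper 3-edge-colouring of the honeycomb graph.  The chirality does not
change under a Kempe change.

*Not ergodic.* A colouring is a closed sequence of `n` rows, and the chirality is a product of signs
of rows.  Closed sequences of rows of sign `-1` are written down for `m = 3`, `n` odd, for `m = 4`,
`n ≥ 4` and for `m ≥ 5`, `n ≥ m` (two neighbouring vertical edges of colour `1` are moved around the
row, past one vertical edge of colour `0`, in `3`, `4` or `5` rows; rows which only rotate the
colours are added in triples); the other sizes follow by transposition.

*Ergodic.* If a colour is absent from the vertical edges of one level, then it is absent from all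
vertical edges, and two Kempe changes lead to a constant colouring; this settles `m = 2`.  Let `m =
3` and let all colours occur in the vertical edges.  There are four types of rows: for a row of type
`X` opposite edges have the same colour, and for a row of type `γ` this is true only for the colour
`γ`.  If two rows have types in `{X, γ}` then the two other colours can be interchanged between
them, and this changes both types from `X` to `γ` and from `γ` to `X`.  The number of rows which are
not of type `X` is even.  So one reaches a colouring in which every type `γ` occurs at most once,
and then, for even `n`, a colouring without rows of type `X` in which one of the types `γ` does not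
occur.  There one colour can be removed from all vertical edges.
-/

set_option autoImplicit false

namespace Pool.Agent.Results.MP_11305c_co.RectangularKagome

open Pool.Agent.H411R2.WSK Pool.Agent.KS6_67.Kag

/-- The chirality of a 3-colouring of the `m × n` periodic kagome lattice, that is, of a
3-edge-colouring of the honeycomb graph: the product over the vertices `(x, A)` and `(z, B)` of `1`
if the colours of the edges of directions `0, 1, 2` at the vertex are a cyclic shift of `0, 1, 2`,
and `-1` otherwise.  Here `e x t` is the edge of direction `t` at `(x, A)`, its other end is
`(x - d t, B)`. -/
def chirality {m n : ℕ} [NeZero m] [NeZero n] (c : (kagome m n).Coloring (Fin 3)) : ℤ :=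
  (∏ x : X m n, sg (c (e x 0)) (c (e x 1)) (c (e x 2))) *
    ∏ z : X m n, sg (c (e (z + d 0) 0)) (c (e (z + d 1) 1)) (c (e (z + d 2) 2))

/-- **Theorem.** For all `m, n ≥ 2` the WSK dynamics for `3` colours on the `m × n` periodic kagome
lattice is ergodic if and only if `m = 2`, or `n = 2`, or `m = 3` and `n` is even, or `n = 3` and
`m` is even; and this is the case if and only if all 3-colourings have chirality `1`. -/
theorem result (m n : ℕ) [NeZero m] [NeZero n] (hm : 2 ≤ m) (hn : 2 ≤ n) :
    (WSKErgodic (kagome m n) 3 ↔
      m = 2 ∨ n = 2 ∨ (m = 3 ∧ Even n) ∨ (n = 3 ∧ Even m)) ∧
    (WSKErgodic (kagome m n) 3 ↔
      ∀ c : (kagome m n).Coloring (Fin 3), chirality c = 1) := by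
  refine ⟨(erg_iff hm hn).trans (erg_iff_sizes hm hn), (erg_iff hm hn).trans ?_⟩
  rw [erg_iff_eps hm hn]
  constructor
  · intro h c
    exact h (fn c) (fn_good hm hn c)
  · intro h f hf
    have h1 : eps (fn (mk hm hn f hf)) = 1 := h (mk hm hn f hf)
    rwa [fn_mk] at h1

end Pool.Agent.Results.MP_11305c_co.RectangularKagome
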